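import Pool.Agent.Helper99.TS.Sym

/-!
# TS: a seven-dimensional space on which the second variation is negative definite

The functions are `1`, the coordinates `y a`, and `ff F a`. By the symmetry `Q` splits into `Q 1 1 < 0` and three equal blocks with
entries `-τ / 3`, `-2 m / 3`, `-2 k / 3`; these are negative definite because `2 m ^ 2 < τ k` (`main_ineq`).
-/

set_option autoImplicit false

open MeasureTheory Filter
open scoped ContDiff Topology

namespace Pool.Agent.Helper99.TS

open Pool.Agent.Helper78.FB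

variable {F f g w : E → ℝ}

theorem ne_zero_of_tet (h : FBMS F) (hT : Tet F) {y : E} (hy : y ∈ surf F) : y ≠ 0 := by
  rintro rfl
  have h0 : ∀ b : Fin 3, pd b F 0 = 0 := by
    intro b
    obtain ⟨a, ha⟩ : ∃ a : Fin 3, b ≠ a := ⟨b + 1, by fin_cases b <;> decide⟩
    have h1 := pd_F_sp h.smooth (hT.turn a) b 0
    have h2 : sp 1 (fun i => if i = a then (1 : ℝ) else -1) (0 : E) = 0 := by
      ext i
      rw [sp_apply]
      exact mul_zero _
    rw [h2] at h1
    simp only [Equiv.Perm.coe_one, id_eq, if_neg ha] at h1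
    linarith
  have h1 := grad_sq h hy
  simp only [h0] at h1
  norm_num at h1

theorem area_sum3 (h : FBMS F) (φ : Fin 3 → E → ℝ) (hφ : ∀ a, Continuous (φ a)) :
    area F (fun y => ∑ a, φ a y) = ∑ a, area F (φ a) := by
  have e : (fun y => ∑ a, φ a y) = fun y => (φ 0 y + φ 1 y) + φ 2 y := by
    funext y
    rw [Fin.sum_univ_three]
  have c1 : ContinuousOn (fun y => φ 0 y + φ 1 y) (surf F) := ((hφ 0).add (hφ 1)).continuousOn
  have e2 : area F (fun y => φ 0 y + φ 1 y) = area F (φ 0) + area F (φ 1) :=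
    area_add h (hφ 0).continuousOn (hφ 1).continuousOn
  have e3 : area F (fun y => (φ 0 y + φ 1 y) + φ 2 y) = area F (fun y => φ 0 y + φ 1 y) + area F (φ 2) :=
    area_add h c1 (hφ 2).continuousOn
  rw [e, e3, e2, Fin.sum_univ_three]

/-- The values of `Q` on the seven functions. -/
theorem values (h : FBMS F) (hT : Tet F) (hflat : ∃ y ∈ surf F, normA F y ≠ 0) :
    Q F (fun _ => 1) (fun _ => 1) < 0 ∧ Q F (fun y => y 0) (fun y => y 0) < 0 ∧
      Q F (ff F 0) (fun y => y 0) ^ 2 < Q F (fun y => y 0) (fun y => y 0) * Q F (ff F 0) (ff F 0) := by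
  have hF := h.smooth
  obtain ⟨z, hz, hnz⟩ := hflat
  have hz0 := ne_zero_of_tet h hT hz
  have ca : Continuous (normA F) := (contDiff_normA hF).continuous
  have cu : Continuous (uu F) := (contDiff_uu hF).continuous
  have crr : Continuous rr := contDiff_rr.continuous
  have hApos : 0 < area F (fun _ => 1) :=
    area_pos h continuousOn_const (fun _ _ => zero_le_one) hz one_pos
  have hrz : 0 < rr z := by
    have h1 : rr z = ‖z‖ ^ 2 := (norm_sq z).symm
    rw [h1]
    have := norm_pos_iff.2 hz0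
    positivity
  have hnz' : 0 < normA F z := lt_of_le_of_ne (normA_nonneg z) hnz.symm
  have hτ : 0 < area F (fun y => normA F y * rr y) :=
    area_pos h (ca.mul crr).continuousOn (fun y _ => mul_nonneg (normA_nonneg y) (rr_nonneg y)) hz (mul_pos hnz' hrz)
  have hv : 0 < area F (fun y => uu F y ^ 2) := by
    by_contra hneg
    have hu0 : ∀ y ∈ surf F, uu F y = 0 := by
      intro y hy
      by_contra hne
      exact hneg (area_pos h (cu.pow 2).continuousOn (fun _ _ => sq_nonneg _) hy (by positivity))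
    have hP : area F (fun y => normA F y * uu F y ^ 2) = area F (fun _ => 0) := by
      refine area_congr (fun y hy => ?_) h
      rw [hu0 y hy]
      ring
    have h0 : area F (fun _ => 0) = 0 := by simp [area]
    rw [area_tau h, hP, h0] at hτ
    norm_num at hτ
  have hmain := main_ineq h hz hv
  have q11 : Q F (fun _ => 1) (fun _ => 1) < 0 := by
    rw [Q_one h contDiff_const, len_one h]
    have h1 : 0 ≤ area F (fun y => normA F y * 1) :=
      area_nonneg h fun y _ => mul_nonneg (normA_nonneg y) zero_le_one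
    linarith
  have cc : ∀ a : Fin 3, ContDiff ℝ ∞ (fun y : E => y a) := fun a => contDiff_coord a
  have cf : ∀ a : Fin 3, ContDiff ℝ ∞ (ff F a) := fun a => contDiff_ff hF a
  have sXX : 3 * Q F (fun y => y 0) (fun y => y 0) = -area F (fun y => normA F y * rr y) := by
    have d1 := Q_diag (G := fun j y => y j) (H := fun j y => y j) hF hT cc cc vec_coord vec_coord 1
    have d2 := Q_diag (G := fun j y => y j) (H := fun j y => y j) hF hT cc cc vec_coord vec_coord 2
    have e1 : area F (fun y => ∑ a, normA F y * (y a * y a)) = ∑ a, area F (fun y => normA F y * (y a * y a)) :=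
      area_sum3 h (fun a y => normA F y * (y a * y a)) fun a =>
        ca.mul ((cc a).continuous.mul (cc a).continuous)
    have e2 : (fun y => ∑ a, normA F y * (y a * y a)) = fun y => normA F y * rr y := by
      funext y
      unfold rr
      rw [Finset.mul_sum]
      exact Finset.sum_congr rfl fun a _ => by ring
    rw [e2, Fin.sum_univ_three] at e1
    have v0 := Q_coord h 0 (cc 0)
    have v1 := Q_coord h 1 (cc 1)
    have v2 := Q_coord h 2 (cc 2)
    linarith
  have sfX : 3 * Q F (ff F 0) (fun y => y 0) = -2 * area F (uu F) := by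
    have d1 := Q_diag (G := ff F) (H := fun j y => y j) hF hT cf cc (vec_ff hF) vec_coord 1
    have d2 := Q_diag (G := ff F) (H := fun j y => y j) hF hT cf cc (vec_ff hF) vec_coord 2
    have e1 : area F (fun y => ∑ a, pd a F y * y a) = ∑ a, area F (fun y => pd a F y * y a) :=
      area_sum3 h (fun a y => pd a F y * y a) fun a =>
        (contDiff_pd a hF).continuous.mul (cc a).continuous
    have e2 : (fun y => ∑ a, pd a F y * y a) = uu F := by
      funext y
      unfold uu
      exact Finset.sum_congr rfl fun a _ => by ring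
    rw [e2, Fin.sum_univ_three] at e1
    have v0 := Q_ff h 0 (cc 0)
    have v1 := Q_ff h 1 (cc 1)
    have v2 := Q_ff h 2 (cc 2)
    linarith
  have sff : 3 * Q F (ff F 0) (ff F 0) = -2 * area F (fun y => ∑ a, pd a F y * ff F a y) := by
    have d1 := Q_diag (G := ff F) (H := ff F) hF hT cf cf (vec_ff hF) (vec_ff hF) 1
    have d2 := Q_diag (G := ff F) (H := ff F) hF hT cf cf (vec_ff hF) (vec_ff hF) 2
    have e1 : area F (fun y => ∑ a, pd a F y * ff F a y) = ∑ a, area F (fun y => pd a F y * ff F a y) :=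
      area_sum3 h (fun a y => pd a F y * ff F a y) fun a =>
        (contDiff_pd a hF).continuous.mul (cf a).continuous
    rw [Fin.sum_univ_three] at e1
    have v0 := Q_ff h 0 (cf 0)
    have v1 := Q_ff h 1 (cf 1)
    have v2 := Q_ff h 2 (cf 2)
    linarith
  refine ⟨q11, by linarith, ?_⟩
  generalize Q F (fun y => y 0) (fun y => y 0) = p at *
  generalize Q F (ff F 0) (fun y => y 0) = r at *
  generalize Q F (ff F 0) (ff F 0) = s at *
  generalize area F (fun y => normA F y * rr y) = τ at *
  generalize area F (uu F) = m at *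
  generalize area F (fun y => ∑ a, pd a F y * ff F a y) = k at *
  have hτp : τ = -(3 * p) := by linarith
  have hm : m = -(3 / 2 * r) := by linarith
  have hk : k = -(3 / 2 * s) := by linarith
  rw [hτp, hm, hk] at hmain
  nlinarith

theorem Q_sum (h : FBMS F) {ι : Type} (s : Finset ι) (c : ι → ℝ) (b : ι → E → ℝ)
    (hb : ∀ i, ContDiff ℝ ∞ (b i)) {w : E → ℝ} (hw : ContDiff ℝ ∞ w) :
    Q F (fun y => ∑ i ∈ s, c i * b i y) w = ∑ i ∈ s, c i * Q F (b i) w := by
  classical
  induction s using Finset.induction_on with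
  | empty =>
    have h1 := Q_const_mul_left h 0 (contDiff_const (c := (0 : ℝ)) (𝕜 := ℝ) (E := E) (n := ∞)) hw
    simp only [Finset.sum_empty, zero_mul] at h1 ⊢
    exact h1
  | insert i s hi ih =>
    have e : (fun y => ∑ j ∈ insert i s, c j * b j y) = fun y => c i * b i y + ∑ j ∈ s, c j * b j y := by
      funext y
      rw [Finset.sum_insert hi]
    rw [e, Q_add_left h (contDiff_const.mul (hb i)) (ContDiff.sum fun j _ => contDiff_const.mul (hb j)) hw,
      Q_const_mul_left h (c i) (hb i) hw, ih, Finset.sum_insert hi]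

/-- The seven functions. -/
noncomputable def fam (F : E → ℝ) : Fin 7 → E → ℝ :=
  ![fun _ => 1, fun y => y 0, fun y => y 1, fun y => y 2, ff F 0, ff F 1, ff F 2]

theorem contDiff_fam (h : FBMS F) (i : Fin 7) : ContDiff ℝ ∞ (fam F i) := by
  have hF := h.smooth
  fin_cases i
  · exact contDiff_const
  · exact contDiff_coord 0
  · exact contDiff_coord 1
  · exact contDiff_coord 2
  · exact contDiff_ff hF 0
  · exact contDiff_ff hF 1
  · exact contDiff_ff hF 2

theorem seven (h : FBMS F) (hT : Tet F) (hflat : ∃ y ∈ surf F, normA F y ≠ 0) (c : Fin 7 → ℝ) (hc : c ≠ 0) :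
    Q F (fun y => ∑ i, c i * fam F i y) (fun y => ∑ i, c i * fam F i y) < 0 := by
  have hF := h.smooth
  obtain ⟨q11, qp, qrs⟩ := values h hT hflat
  have cc : ∀ a : Fin 3, ContDiff ℝ ∞ (fun y : E => y a) := fun a => contDiff_coord a
  have cf : ∀ a : Fin 3, ContDiff ℝ ∞ (ff F a) := fun a => contDiff_ff hF a
  have hw : ContDiff ℝ ∞ (fun y => ∑ i, c i * fam F i y) :=
    ContDiff.sum fun i _ => contDiff_const.mul (contDiff_fam h i)
  have e1 : Q F (fun y => ∑ i, c i * fam F i y) (fun y => ∑ i, c i * fam F i y) =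
      ∑ i, ∑ j, c i * c j * Q F (fam F i) (fam F j) := by
    rw [Q_sum h Finset.univ c (fam F) (contDiff_fam h) hw]
    refine Finset.sum_congr rfl fun i _ => ?_
    rw [Q_comm, Q_sum h Finset.univ c (fam F) (contDiff_fam h) (contDiff_fam h i), Finset.mul_sum]
    refine Finset.sum_congr rfl fun j _ => ?_
    rw [Q_comm (fam F j)]
    ring
  -- values
  have XX : ∀ a b : Fin 3, Q F (fun y => y a) (fun y => y b) =
      if a = b then Q F (fun y => y 0) (fun y => y 0) else 0 := by
    intro a b
    by_cases hab : a = b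
    · subst hab
      rw [if_pos rfl]
      exact Q_diag (G := fun j y => y j) (H := fun j y => y j) hF hT cc cc vec_coord vec_coord a
    · rw [if_neg hab]
      exact Q_off (G := fun j y => y j) (H := fun j y => y j) hF hT cc cc vec_coord vec_coord h hab
  have fX : ∀ a b : Fin 3, Q F (ff F a) (fun y => y b) =
      if a = b then Q F (ff F 0) (fun y => y 0) else 0 := by
    intro a b
    by_cases hab : a = b
    · subst hab
      rw [if_pos rfl]
      exact Q_diag (G := ff F) (H := fun j y => y j) hF hT cf cc (vec_ff hF) vec_coord a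
    · rw [if_neg hab]
      exact Q_off (G := ff F) (H := fun j y => y j) hF hT cf cc (vec_ff hF) vec_coord h hab
  have Xf : ∀ a b : Fin 3, Q F (fun y => y a) (ff F b) =
      if a = b then Q F (ff F 0) (fun y => y 0) else 0 := by
    intro a b
    rw [Q_comm, fX b a]
    by_cases hab : a = b
    · rw [if_pos hab, if_pos hab.symm]
    · rw [if_neg hab, if_neg (Ne.symm hab)]
  have f2 : ∀ a b : Fin 3, Q F (ff F a) (ff F b) =
      if a = b then Q F (ff F 0) (ff F 0) else 0 := by
    intro a b
    by_cases hab : a = b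
    · subst hab
      rw [if_pos rfl]
      exact Q_diag (G := ff F) (H := ff F) hF hT cf cf (vec_ff hF) (vec_ff hF) a
    · rw [if_neg hab]
      exact Q_off (G := ff F) (H := ff F) hF hT cf cf (vec_ff hF) (vec_ff hF) h hab
  have X1 : ∀ a : Fin 3, Q F (fun y => y a) (fun _ => 1) = 0 :=
    fun a => Q_one_vec (G := fun j y => y j) hF hT cc vec_coord h a
  have f1 : ∀ a : Fin 3, Q F (ff F a) (fun _ => 1) = 0 :=
    fun a => Q_one_vec (G := ff F) hF hT cf (vec_ff hF) h a
  have oX : ∀ a : Fin 3, Q F (fun _ => 1) (fun y => y a) = 0 := fun a => by rw [Q_comm, X1]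
  have of : ∀ a : Fin 3, Q F (fun _ => 1) (ff F a) = 0 := fun a => by rw [Q_comm, f1]
  have e2 : ∑ i, ∑ j, c i * c j * Q F (fam F i) (fam F j) = c 0 ^ 2 * Q F (fun _ => 1) (fun _ => 1) +
      ((c 1 ^ 2 * Q F (fun y => y 0) (fun y => y 0) + 2 * c 1 * c 4 * Q F (ff F 0) (fun y => y 0) +
          c 4 ^ 2 * Q F (ff F 0) (ff F 0)) +
        (c 2 ^ 2 * Q F (fun y => y 0) (fun y => y 0) + 2 * c 2 * c 5 * Q F (ff F 0) (fun y => y 0) +
          c 5 ^ 2 * Q F (ff F 0) (ff F 0)) +
        (c 3 ^ 2 * Q F (fun y => y 0) (fun y => y 0) + 2 * c 3 * c 6 * Q F (ff F 0) (fun y => y 0) +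
          c 6 ^ 2 * Q F (ff F 0) (ff F 0))) := by
    have n0 : fam F 0 = fun _ => 1 := rfl
    have n1 : fam F 1 = fun y => y 0 := rfl
    have n2 : fam F 2 = fun y => y 1 := rfl
    have n3 : fam F 3 = fun y => y 2 := rfl
    have n4 : fam F 4 = ff F 0 := rfl
    have n5 : fam F 5 = ff F 1 := rfl
    have n6 : fam F 6 = ff F 2 := rfl
    have z01 : (0 : Fin 3) ≠ 1 := by decide
    have z02 : (0 : Fin 3) ≠ 2 := by decide
    have z12 : (1 : Fin 3) ≠ 2 := by decide
    have t1 : Q F (fun y => y 1) (fun y => y 1) = Q F (fun y => y 0) (fun y => y 0) := by rw [XX 1 1, if_pos rfl]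
    have t2 : Q F (fun y => y 2) (fun y => y 2) = Q F (fun y => y 0) (fun y => y 0) := by rw [XX 2 2, if_pos rfl]
    have t3 : Q F (ff F 1) (fun y => y 1) = Q F (ff F 0) (fun y => y 0) := by rw [fX 1 1, if_pos rfl]
    have t4 : Q F (ff F 2) (fun y => y 2) = Q F (ff F 0) (fun y => y 0) := by rw [fX 2 2, if_pos rfl]
    have t5 : Q F (fun y => y 1) (ff F 1) = Q F (ff F 0) (fun y => y 0) := by rw [Xf 1 1, if_pos rfl]
    have t6 : Q F (fun y => y 2) (ff F 2) = Q F (ff F 0) (fun y => y 0) := by rw [Xf 2 2, if_pos rfl]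
    have t7 : Q F (ff F 1) (ff F 1) = Q F (ff F 0) (ff F 0) := by rw [f2 1 1, if_pos rfl]
    have t8 : Q F (ff F 2) (ff F 2) = Q F (ff F 0) (ff F 0) := by rw [f2 2 2, if_pos rfl]
    have t9 : Q F (fun y => y 0) (ff F 0) = Q F (ff F 0) (fun y => y 0) := Q_comm _ _
    have o : ∀ a b : Fin 3, a ≠ b → Q F (fun y => y a) (fun y => y b) = 0 := fun a b hab => by
      rw [XX a b, if_neg hab]
    have o' : ∀ a b : Fin 3, a ≠ b → Q F (ff F a) (fun y => y b) = 0 := fun a b hab => by
      rw [fX a b, if_neg hab]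
    have o'' : ∀ a b : Fin 3, a ≠ b → Q F (fun y => y a) (ff F b) = 0 := fun a b hab => by
      rw [Xf a b, if_neg hab]
    have o''' : ∀ a b : Fin 3, a ≠ b → Q F (ff F a) (ff F b) = 0 := fun a b hab => by
      rw [f2 a b, if_neg hab]
    simp only [Fin.sum_univ_seven, n0, n1, n2, n3, n4, n5, n6, t1, t2, t3, t4, t5, t6, t7, t8, t9, X1, f1, oX, of,
      o 0 1 z01, o 0 2 z02, o 1 2 z12, o 1 0 z01.symm, o 2 0 z02.symm, o 2 1 z12.symm,
      o' 0 1 z01, o' 0 2 z02, o' 1 2 z12, o' 1 0 z01.symm, o' 2 0 z02.symm, o' 2 1 z12.symm,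
      o'' 0 1 z01, o'' 0 2 z02, o'' 1 2 z12, o'' 1 0 z01.symm, o'' 2 0 z02.symm, o'' 2 1 z12.symm,
      o''' 0 1 z01, o''' 0 2 z02, o''' 1 2 z12, o''' 1 0 z01.symm, o''' 2 0 z02.symm, o''' 2 1 z12.symm]
    ring
  rw [e1, e2]
  generalize Q F (fun _ => 1) (fun _ => 1) = q at *
  generalize Q F (fun y => y 0) (fun y => y 0) = p at *
  generalize Q F (ff F 0) (fun y => y 0) = r at *
  generalize Q F (ff F 0) (ff F 0) = s at *
  clear e1 e2 XX fX Xf f2 X1 f1 oX of
  have blk : ∀ α β : ℝ, α ^ 2 * p + 2 * α * β * r + β ^ 2 * s ≤ 0 ∧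
      (α ^ 2 * p + 2 * α * β * r + β ^ 2 * s = 0 → α = 0 ∧ β = 0) := by
    intro α β
    have k1 : p * (α ^ 2 * p + 2 * α * β * r + β ^ 2 * s) = (p * α + r * β) ^ 2 + (p * s - r ^ 2) * β ^ 2 := by ring
    have k2 : 0 < p * s - r ^ 2 := by linarith
    constructor
    · by_contra hpos
      push Not at hpos
      have k3 : p * (α ^ 2 * p + 2 * α * β * r + β ^ 2 * s) < 0 := mul_neg_of_neg_of_pos qp hpos
      rw [k1] at k3
      have := sq_nonneg (p * α + r * β)
      have := mul_nonneg k2.le (sq_nonneg β)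
      linarith
    · intro h0
      rw [h0, mul_zero] at k1
      have s1 := sq_nonneg (p * α + r * β)
      have s2 := mul_nonneg k2.le (sq_nonneg β)
      have s3 : (p * s - r ^ 2) * β ^ 2 = 0 := by linarith
      have hβ : β = 0 := by
        rcases mul_eq_zero.1 s3 with h | h
        · exact absurd h k2.ne'
        · exact pow_eq_zero_iff two_ne_zero |>.1 h
      have s4 : (p * α + r * β) ^ 2 = 0 := by linarith
      have s5 : p * α + r * β = 0 := pow_eq_zero_iff two_ne_zero |>.1 s4
      rw [hβ, mul_zero, add_zero] at s5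
      rcases mul_eq_zero.1 s5 with h | h
      · exact absurd h qp.ne
      · exact ⟨h, hβ⟩
  obtain ⟨b1, z1⟩ := blk (c 1) (c 4)
  obtain ⟨b2, z2⟩ := blk (c 2) (c 5)
  obtain ⟨b3, z3⟩ := blk (c 3) (c 6)
  have b0 : c 0 ^ 2 * q ≤ 0 := mul_nonpos_of_nonneg_of_nonpos (sq_nonneg _) q11.le
  by_contra hnn
  push Not at hnn
  apply hc
  have y0 : c 0 ^ 2 * q = 0 := by linarith
  have y1 := z1 (by linarith)
  have y2 := z2 (by linarith)
  have y3 := z3 (by linarith)
  have hc0 : c 0 = 0 := by
    rcases mul_eq_zero.1 y0 with h | h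
    · exact pow_eq_zero_iff two_ne_zero |>.1 h
    · exact absurd h q11.ne
  funext i
  fin_cases i
  · exact hc0
  · exact y1.1
  · exact y2.1
  · exact y3.1
  · exact y1.2
  · exact y2.2
  · exact y3.2

/-- The tetrahedral rotation group is generated by a rotation of order three and a half-turn. -/
theorem tet_of (hcyc : ∀ y : E, F !₂[y 1, y 2, y 0] = F y) (hturn : ∀ y : E, F !₂[y 0, -y 1, -y 2] = F y) : Tet F := by
  have t0 : ∀ y : E, F (sp 1 (fun i => if i = 0 then 1 else -1) y) = F y := by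
    intro y
    rw [← hturn y]
    congr 1
    ext i
    rw [sp_apply]
    fin_cases i <;> simp
  have c0 : ∀ y : E, F (sp (finRotate 3) (fun _ => 1) y) = F y := by
    intro y
    rw [← hcyc y]
    congr 1
    ext i
    rw [sp_apply, one_mul]
    fin_cases i <;> rfl
  have t1 : ∀ y : E, F (sp 1 (fun i => if i = 1 then 1 else -1) y) = F y := by
    intro y
    have e : sp 1 (fun i => if i = 1 then (1 : ℝ) else -1) y =
        sp (finRotate 3) (fun _ => 1) (sp (finRotate 3) (fun _ => 1) (sp 1 (fun i => if i = 0 then (1 : ℝ) else -1)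
          (sp (finRotate 3) (fun _ => 1) y))) := by
      ext i
      simp only [sp_apply, one_mul]
      fin_cases i
      · show (if (0 : Fin 3) = 1 then (1 : ℝ) else -1) * y 0 = (if (2 : Fin 3) = 0 then (1 : ℝ) else -1) * y 0
        rw [if_neg (by decide), if_neg (by decide)]
      · show (if (1 : Fin 3) = 1 then (1 : ℝ) else -1) * y 1 = (if (0 : Fin 3) = 0 then (1 : ℝ) else -1) * y 1
        rw [if_pos rfl, if_pos rfl]
      · show (if (2 : Fin 3) = 1 then (1 : ℝ) else -1) * y 2 = (if (1 : Fin 3) = 0 then (1 : ℝ) else -1) * y 2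
        rw [if_neg (by decide), if_neg (by decide)]
    rw [e, c0, c0, t0, c0]
  have t2 : ∀ y : E, F (sp 1 (fun i => if i = 2 then 1 else -1) y) = F y := by
    intro y
    have e : sp 1 (fun i => if i = 2 then (1 : ℝ) else -1) y =
        sp 1 (fun i => if i = 0 then (1 : ℝ) else -1) (sp 1 (fun i => if i = 1 then (1 : ℝ) else -1) y) := by
      ext i
      simp only [sp_apply]
      fin_cases i
      · show (if (0 : Fin 3) = 2 then (1 : ℝ) else -1) * y 0 =
          (if (0 : Fin 3) = 0 then (1 : ℝ) else -1) * ((if (0 : Fin 3) = 1 then (1 : ℝ) else -1) * y 0)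
        rw [if_neg (by decide), if_pos rfl, if_neg (by decide)]
        ring
      · show (if (1 : Fin 3) = 2 then (1 : ℝ) else -1) * y 1 =
          (if (1 : Fin 3) = 0 then (1 : ℝ) else -1) * ((if (1 : Fin 3) = 1 then (1 : ℝ) else -1) * y 1)
        rw [if_neg (by decide), if_neg (by decide), if_pos rfl]
        ring
      · show (if (2 : Fin 3) = 2 then (1 : ℝ) else -1) * y 2 =
          (if (2 : Fin 3) = 0 then (1 : ℝ) else -1) * ((if (2 : Fin 3) = 1 then (1 : ℝ) else -1) * y 2)
        rw [if_pos rfl, if_neg (by decide), if_neg (by decide)]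
        ring
    rw [e, t0, t1]
  refine ⟨c0, fun a => ?_⟩
  fin_cases a
  · exact t0
  · exact t1
  · exact t2

end Pool.Agent.Helper99.TS
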