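import Pool.Agent.Helper94.FB.QForm

/-!
# TS: algebra and calculus on a free boundary minimal surface

* `mat_sq`: a symmetric trace-free `3 × 3` matrix `M` with `M n = 0`, `|n| = 1`, satisfies `|M y| ^ 2 = |M| ^ 2 (|y| ^ 2 - ⟨y, n⟩ ^ 2) / 2`.
* `lap_mul`, `nd_mul`, `tang_mul_right`: product rules. `tang_sq`: `tang F (|y| ^ 2) g`.
* `tang_uu_uu`: `|∇ u| ^ 2 = |A| ^ 2 (|y| ^ 2 - u ^ 2) / 2` on the surface.
-/

set_option autoImplicit false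

open MeasureTheory Filter
open scoped ContDiff Topology

namespace Pool.Agent.Helper99.TS

open Pool.Agent.Helper78.FB

variable {F f g w : E → ℝ}

/-- The square of the norm. -/
noncomputable def rr (y : E) : ℝ := ∑ k, y k ^ 2

theorem contDiff_rr : ContDiff ℝ ∞ rr := by
  show ContDiff ℝ ∞ (fun y : E => ∑ k, y k ^ 2)
  exact ContDiff.sum fun i _ => (contDiff_coord i).pow 2

/-- Cross products of two vectors orthogonal to the unit vector `n`. -/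
private theorem cr {n0 n1 n2 a0 a1 a2 b0 b1 b2 : ℝ} (hn : n0 ^ 2 + n1 ^ 2 + n2 ^ 2 = 1)
    (ha : a0 * n0 + a1 * n1 + a2 * n2 = 0) (hb : b0 * n0 + b1 * n1 + b2 * n2 = 0) :
    ∃ l : ℝ, a1 * b2 - a2 * b1 = l * n0 ∧ a2 * b0 - a0 * b2 = l * n1 ∧ a0 * b1 - a1 * b0 = l * n2 := by
  refine ⟨n0 * (a1 * b2 - a2 * b1) + n1 * (a2 * b0 - a0 * b2) + n2 * (a0 * b1 - a1 * b0), ?_, ?_, ?_⟩
  · linear_combination (n1 * b2 - n2 * b1) * ha - (n1 * a2 - n2 * a1) * hb - (a1 * b2 - a2 * b1) * hn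
  · linear_combination (n2 * b0 - n0 * b2) * ha - (n2 * a0 - n0 * a2) * hb - (a2 * b0 - a0 * b2) * hn
  · linear_combination (n0 * b1 - n1 * b0) * ha - (n0 * a1 - n1 * a0) * hb - (a0 * b1 - a1 * b0) * hn

private theorem mat_alg {n0 n1 n2 a b c d e f y0 y1 y2 : ℝ} (hn : n0 ^ 2 + n1 ^ 2 + n2 ^ 2 = 1)
    (h0 : a * n0 + b * n1 + c * n2 = 0) (h1 : b * n0 + d * n1 + e * n2 = 0) (h2 : c * n0 + e * n1 + f * n2 = 0)
    (ht : a + d + f = 0) :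
    (a * y0 + b * y1 + c * y2) ^ 2 + (b * y0 + d * y1 + e * y2) ^ 2 + (c * y0 + e * y1 + f * y2) ^ 2 =
      1 / 2 * (a ^ 2 + d ^ 2 + f ^ 2 + 2 * (b ^ 2 + c ^ 2 + e ^ 2)) *
        (y0 ^ 2 + y1 ^ 2 + y2 ^ 2 - (y0 * n0 + y1 * n1 + y2 * n2) ^ 2) := by
  obtain ⟨l0, p00, p01, p02⟩ := cr hn h1 h2
  obtain ⟨l1, p10, p11, p12⟩ := cr hn h2 h0
  obtain ⟨l2, p20, p21, p22⟩ := cr hn h0 h1
  have q01 : l0 * n1 = l1 * n0 := by rw [← p01, ← p10]; ring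
  have q02 : l0 * n2 = l2 * n0 := by rw [← p02, ← p20]; ring
  have q12 : l1 * n2 = l2 * n1 := by rw [← p12, ← p21]; ring
  obtain ⟨κ, hκ⟩ : ∃ κ : ℝ, κ = l0 * n0 + l1 * n1 + l2 * n2 := ⟨_, rfl⟩
  have r0 : l0 = κ * n0 := by
    rw [hκ]
    linear_combination (-l0) * hn + n1 * q01 + n2 * q02
  have r1 : l1 = κ * n1 := by
    rw [hκ]
    linear_combination (-l1) * hn - n0 * q01 + n2 * q12
  have r2 : l2 = κ * n2 := by
    rw [hκ]
    linear_combination (-l2) * hn - n0 * q02 - n1 * q12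
  have hf : f = -a - d := by linarith
  have hκ' : κ = -(1 / 2) * (a ^ 2 + d ^ 2 + f ^ 2 + 2 * (b ^ 2 + c ^ 2 + e ^ 2)) := by
    have s0 := p00
    have s1 := p11
    have s2 := p22
    rw [hκ, ← p00, ← p11, ← p22, hf]
    ring
  have key : (a * y0 + b * y1 + c * y2) ^ 2 + (b * y0 + d * y1 + e * y2) ^ 2 + (c * y0 + e * y1 + f * y2) ^ 2 =
      1 / 2 * (a ^ 2 + d ^ 2 + f ^ 2 + 2 * (b ^ 2 + c ^ 2 + e ^ 2)) * (y0 ^ 2 + y1 ^ 2 + y2 ^ 2) +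
        (y0 ^ 2 * (d * f - e * e) + y1 ^ 2 * (f * a - c * c) + y2 ^ 2 * (a * d - b * b) +
          2 * y0 * y1 * (e * c - b * f) + 2 * y0 * y2 * (b * e - d * c) + 2 * y1 * y2 * (c * b - e * a)) := by
    rw [hf]
    ring
  have t00 : d * f - e * e = κ * n0 * n0 := by rw [← r0, ← p00]
  have t11 : f * a - c * c = κ * n1 * n1 := by rw [← r1, ← p11]
  have t22 : a * d - b * b = κ * n2 * n2 := by rw [← r2, ← p22]
  have t01 : e * c - b * f = κ * n0 * n1 := by rw [← r0, ← p01]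
  have t02 : b * e - d * c = κ * n0 * n2 := by rw [← r0, ← p02]
  have t12 : c * b - e * a = κ * n1 * n2 := by rw [← r1, ← p12]
  rw [key, t00, t11, t22, t01, t02, t12, hκ']
  ring

/-- For a symmetric trace-free matrix `M` with `M n = 0`, `|n| = 1`: `|M y| ^ 2 = |M| ^ 2 (|y| ^ 2 - ⟨y, n⟩ ^ 2) / 2`. -/
theorem mat_sq (M : Fin 3 → Fin 3 → ℝ) (n y : Fin 3 → ℝ) (hs : ∀ i j, M i j = M j i) (hn : ∑ i, n i ^ 2 = 1)
    (h0 : ∀ j, ∑ i, n i * M j i = 0) (ht : ∑ i, M i i = 0) :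
    ∑ j, (∑ i, y i * M i j) ^ 2 = 1 / 2 * (∑ i, ∑ j, M i j ^ 2) * (∑ i, y i ^ 2 - (∑ i, y i * n i) ^ 2) := by
  have a0 := h0 0
  have a1 := h0 1
  have a2 := h0 2
  have s10 := hs 1 0
  have s20 := hs 2 0
  have s21 := hs 2 1
  simp only [Fin.sum_univ_three] at hn a0 a1 a2 ht ⊢
  rw [s10, s20, s21] at *
  have := mat_alg (n0 := n 0) (n1 := n 1) (n2 := n 2) (a := M 0 0) (b := M 0 1) (c := M 0 2) (d := M 1 1)
    (e := M 1 2) (f := M 2 2) (y0 := y 0) (y1 := y 1) (y2 := y 2) hn (by linarith) (by linarith) (by linarith) ht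
  linear_combination this

end Pool.Agent.Helper99.TS
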