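import Pool.Agent.Helper99.TS.Alg

/-!
# TS: calculus on a free boundary minimal surface

* `lap_mul`, `nd_mul`, `tang_rr`: product rules and the function `|y| ^ 2`.
* `tang_uu_self`: `|∇ u| ^ 2 = |A| ^ 2 (|y| ^ 2 - u ^ 2) / 2` on the surface.
* `ff F a = (1 + |y| ^ 2) / 2 * N_a - u y_a` (normal component of a conformal field of the ball): `lap_ff`, `nd_ff`, `Q_ff`.
-/

set_option autoImplicit false

open MeasureTheory Filter
open scoped ContDiff Topology

namespace Pool.Agent.Helper99.TS

open Pool.Agent.Helper78.FB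

variable {F f g w : E → ℝ}

theorem lap_mul (hf : ContDiff ℝ ∞ f) (hg : ContDiff ℝ ∞ g) (y : E) :
    lap F (fun y => f y * g y) y = f y * lap F g y + g y * lap F f y + 2 * tang F f g y := by
  have h1 : ∀ i j : Fin 3, pd i (pd j (fun y => f y * g y)) y =
      pd i (pd j f) y * g y + pd j f y * pd i g y + (pd i f y * pd j g y + f y * pd i (pd j g) y) := by
    intro i j
    rw [pd_mul j hf hg, pd_add i ((contDiff_pd j hf).mul hg) (hf.mul (contDiff_pd j hg)),
      pd_mul i (contDiff_pd j hf) hg, pd_mul i hf (contDiff_pd j hg)]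
  unfold lap tang
  simp only [h1, Fin.sum_univ_three]
  ring

theorem nd_mul (hf : ContDiff ℝ ∞ f) (hg : ContDiff ℝ ∞ g) (y : E) :
    nd (fun y => f y * g y) y = f y * nd g y + g y * nd f y := by
  have h1 : ∀ i : Fin 3, pd i (fun y => f y * g y) y = pd i f y * g y + f y * pd i g y := by
    intro i
    rw [pd_mul i hf hg]
  unfold nd
  simp only [h1, Fin.sum_univ_three]
  ring

theorem tang_mul_right (hf : ContDiff ℝ ∞ f) (hg : ContDiff ℝ ∞ g) (y : E) :
    tang F w (fun y => f y * g y) y = f y * tang F w g y + g y * tang F w f y := by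
  have h1 : ∀ i : Fin 3, pd i (fun y => f y * g y) y = pd i f y * g y + f y * pd i g y := by
    intro i
    rw [pd_mul i hf hg]
  unfold tang
  simp only [h1, Fin.sum_univ_three]
  ring

theorem lap_sub (hf : ContDiff ℝ ∞ f) (hg : ContDiff ℝ ∞ g) (y : E) :
    lap F (fun y => f y - g y) y = lap F f y - lap F g y := by
  have h1 : ∀ i j : Fin 3, pd i (pd j (fun y => f y - g y)) y = pd i (pd j f) y - pd i (pd j g) y := by
    intro i j
    rw [pd_sub j hf hg, pd_sub i (contDiff_pd j hf) (contDiff_pd j hg)]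
  unfold lap
  simp only [h1, Fin.sum_univ_three]
  ring

theorem nd_sub (hf : ContDiff ℝ ∞ f) (hg : ContDiff ℝ ∞ g) (y : E) :
    nd (fun y => f y - g y) y = nd f y - nd g y := by
  have h1 : ∀ i : Fin 3, pd i (fun y => f y - g y) y = pd i f y - pd i g y := by
    intro i
    rw [pd_sub i hf hg]
  unfold nd
  simp only [h1, Fin.sum_univ_three]
  ring

private theorem pd_rr (j : Fin 3) : pd j rr = fun y => 2 * y j := by
  show pd j (fun y : E => ∑ k, y k ^ 2) = fun y => 2 * y j
  have h1 : (fun y : E => ∑ k, y k ^ 2) = fun y => ∑ k, y k * y k := by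
    funext y
    exact Finset.sum_congr rfl fun k _ => sq _
  rw [h1, pd_sum j Finset.univ (fun k (y : E) => y k * y k)
    (fun k _ => (contDiff_coord k).mul (contDiff_coord k))]
  have h2 : ∀ k : Fin 3, pd j (fun y : E => y k * y k) = fun y => (if j = k then 1 else 0) * y k + y k * (if j = k then 1 else 0) := by
    intro k
    rw [pd_mul j (contDiff_coord k) (contDiff_coord k), pd_coord]
  simp only [h2]
  funext y
  fin_cases j <;> simp [Fin.sum_univ_three] <;> ring

theorem lap_rr (h : FBMS F) {y : E} (hy : y ∈ surf F) : lap F rr y = 4 := lap_sq h hy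

theorem nd_rr (y : E) : nd rr y = 2 * rr y := nd_sq y

theorem rr_bdry {y : E} (hy : y ∈ bdry F) : rr y = 1 := by
  have h1 := norm_sq y
  rw [hy.1, one_pow] at h1
  exact h1.symm

theorem tang_rr (y : E) : tang F rr g y = 2 * (∑ i, y i * pd i g y - uu F y * ∑ i, pd i F y * pd i g y) := by
  unfold tang uu
  simp only [pd_rr, Fin.sum_univ_three]
  ring

theorem tang_rr_rr (y : E) : tang F rr rr y = 4 * (rr y - uu F y ^ 2) := by
  rw [tang_rr]
  simp only [pd_rr]
  unfold rr uu
  simp only [Fin.sum_univ_three]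
  ring

private theorem eik1' (h : FBMS F) {y : E} (hy : y ∈ surf F) (j : Fin 3) :
    ∑ i, pd i F y * pd i (pd j F) y = 0 := by
  rw [← eik1 h hy j]
  refine Finset.sum_congr rfl fun i _ => ?_
  rw [pd_comm i j h.smooth]

theorem tang_uu_self (h : FBMS F) {y : E} (hy : y ∈ surf F) :
    tang F (uu F) (uu F) y = 1 / 2 * normA F y * (rr y - uu F y ^ 2) := by
  have hF := h.smooth
  rw [tang_uu h hy]
  have h1 := mat_sq (fun i j => pd i (pd j F) y) (fun i => pd i F y) (fun i => y i)
    (fun i j => by rw [pd_comm i j hF]) (grad_sq h hy) (fun j => eik1 h hy j) (tr_zero h hy)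
  have h2 : ∑ i, ∑ j, y i * pd i (pd j F) y * pd j (uu F) y = ∑ j, (∑ i, y i * pd i (pd j F) y) ^ 2 := by
    rw [Finset.sum_comm]
    have h3 : ∀ j, pd j (uu F) y = pd j F y + ∑ k, y k * pd k (pd j F) y := by
      intro j
      rw [pd_uu hF]
      show pd j F y + ∑ i, y i * pd j (pd i F) y = _
      congr 1
      refine Finset.sum_congr rfl fun k _ => ?_
      rw [pd_comm j k hF]
    have h4 : ∑ j, pd j F y * ∑ i, y i * pd i (pd j F) y = 0 := by
      have h5 : ∑ j, pd j F y * ∑ i, y i * pd i (pd j F) y = ∑ i, y i * ∑ j, pd j F y * pd i (pd j F) y := by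
        simp only [Fin.sum_univ_three]
        ring
      rw [h5]
      exact Finset.sum_eq_zero fun i _ => by rw [eik1 h hy i, mul_zero]
    have h6 : ∀ j, ∑ i, y i * pd i (pd j F) y * pd j (uu F) y =
        pd j F y * (∑ i, y i * pd i (pd j F) y) + (∑ i, y i * pd i (pd j F) y) ^ 2 := by
      intro j
      rw [← Finset.sum_mul, h3 j]
      ring
    simp only [h6]
    rw [Finset.sum_add_distrib, h4, zero_add]
  rw [h2, h1]
  rfl

/-- The normal component of the conformal field of the ball in the direction of the `a`-th axis. -/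
noncomputable def ff (F : E → ℝ) (a : Fin 3) (y : E) : ℝ := 1 / 2 * (1 + rr y) * pd a F y - uu F y * y a

private theorem contDiff_half : ContDiff ℝ ∞ (fun y : E => 1 / 2 * (1 + rr y)) :=
  contDiff_const.mul (contDiff_const.add contDiff_rr)

theorem contDiff_ff (hF : ContDiff ℝ ∞ F) (a : Fin 3) : ContDiff ℝ ∞ (ff F a) := by
  show ContDiff ℝ ∞ (fun y => 1 / 2 * (1 + rr y) * pd a F y - uu F y * y a)
  exact (contDiff_half.mul (contDiff_pd a hF)).sub ((contDiff_uu hF).mul (contDiff_coord a))

private theorem pd_half (j : Fin 3) : pd j (fun y : E => 1 / 2 * (1 + rr y)) = fun y => y j := by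
  rw [pd_const_mul j (1 / 2) (contDiff_const.add contDiff_rr), pd_add j contDiff_const contDiff_rr, pd_const,
    pd_rr]
  funext y
  ring

theorem lap_ff (h : FBMS F) {y : E} (hy : y ∈ surf F) (a : Fin 3) :
    lap F (ff F a) y = -normA F y * ff F a y + 2 * pd a F y := by
  have hF := h.smooth
  have e1 : lap F (ff F a) y = lap F (fun y => 1 / 2 * (1 + rr y) * pd a F y) y - lap F (fun y => uu F y * y a) y :=
    lap_sub (contDiff_half.mul (contDiff_pd a hF)) ((contDiff_uu hF).mul (contDiff_coord a)) y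
  have e2 : lap F (fun y : E => 1 / 2 * (1 + rr y)) y = 2 := by
    have := lap_rr h hy
    unfold lap at this ⊢
    simp only [pd_half, pd_rr, pd_coord] at this ⊢
    have h2 : ∀ i : Fin 3, pd i (fun y : E => 2 * y i) y = 2 * pd i (fun y : E => y i) y := fun i => by
      rw [pd_const_mul i 2 (contDiff_coord i)]
    have h3 : ∀ i j : Fin 3, pd i (fun y : E => 2 * y j) y = 2 * (if i = j then 1 else 0) := fun i j => by
      rw [pd_const_mul i 2 (contDiff_coord j), pd_coord]
    simp only [h3, Fin.sum_univ_three] at this ⊢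
    linarith
  have e3 : tang F (fun y : E => 1 / 2 * (1 + rr y)) (pd a F) y = ∑ i, y i * pd i (pd a F) y := by
    unfold tang
    simp only [pd_half]
    rw [eik1' h hy a, mul_zero, sub_zero]
  have e4 : tang F (uu F) (fun y => y a) y = ∑ i, y i * pd i (pd a F) y := by
    rw [tang_uu h hy]
    simp only [pd_coord]
    refine Finset.sum_congr rfl fun i _ => ?_
    fin_cases a <;> simp [Fin.sum_univ_three]
  rw [e1, lap_mul contDiff_half (contDiff_pd a hF), lap_mul (contDiff_uu hF) (contDiff_coord a), e2, e3, e4,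
    lap_pd h hy a, lap_uu h hy, lap_coord]
  unfold ff
  ring

theorem ff_bdry (h : FBMS F) {y : E} (hy : y ∈ bdry F) (a : Fin 3) : ff F a y = pd a F y := by
  unfold ff
  rw [rr_bdry hy, orth h hy]
  ring

theorem nd_ff (h : FBMS F) {y : E} (hy : y ∈ bdry F) (a : Fin 3) : nd (ff F a) y = ff F a y := by
  have hF := h.smooth
  have e1 : nd (ff F a) y = nd (fun y => 1 / 2 * (1 + rr y) * pd a F y) y - nd (fun y => uu F y * y a) y :=
    nd_sub (contDiff_half.mul (contDiff_pd a hF)) ((contDiff_uu hF).mul (contDiff_coord a)) y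
  have e2 : nd (fun y : E => 1 / 2 * (1 + rr y)) y = 1 := by
    have h1 := rr_bdry hy
    unfold nd
    simp only [pd_half]
    unfold rr at h1
    rw [← h1]
    exact Finset.sum_congr rfl fun k _ => (sq _).symm
  rw [ff_bdry h hy, e1, nd_mul contDiff_half (contDiff_pd a hF), nd_mul (contDiff_uu hF) (contDiff_coord a), e2,
    nd_pd h hy a, nd_uu h hy, nd_coord, orth h hy, rr_bdry hy]
  ring

theorem Q_ff (h : FBMS F) (a : Fin 3) (hw : ContDiff ℝ ∞ w) :
    Q F (ff F a) w = -2 * area F (fun y => pd a F y * w y) := by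
  rw [Q_green h (contDiff_ff h.smooth a) hw]
  have e1 : area F (fun y => w y * (lap F (ff F a) y + normA F y * ff F a y)) =
      area F (fun y => 2 * (pd a F y * w y)) := by
    refine area_congr (fun y hy => ?_) h
    rw [lap_ff h hy]
    ring
  have e2 : len F (fun y => w y * (nd (ff F a) y - ff F a y)) = len F (fun _ => 0) := by
    refine len_congr (fun y hy => ?_) h
    rw [nd_ff h hy]
    ring
  have e3 : len F (fun _ => 0) = 0 := by simp [len]
  rw [e1, e2, e3, area_const_mul]
  ring

end Pool.Agent.Helper99.TS
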