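import Pool.Agent.Helper99.TS.Calc

/-!
# TS: integral identities and inequalities for the support function

Notation: `A = area 1`, `v = area (u ^ 2)`, `m = area u`, `P = area (|A| ^ 2 u ^ 2)`, `τ = area (|A| ^ 2 |y| ^ 2)`, `k = area (∑ N_a ff_a)`.
`len 1 = 2 A`, `area (|y| ^ 2) = (A + v) / 2`, `k = 3 / 4 (A - v)`, `τ = 3 P`, `v A ≤ P (A - v)`, `m ^ 2 ≤ v A`, so `2 m ^ 2 < τ k`.
-/

set_option autoImplicit false

open MeasureTheory Filter
open scoped ContDiff Topology

namespace Pool.Agent.Helper99.TS

open Pool.Agent.Helper78.FB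

variable {F f g w : E → ℝ}

private theorem cu (h : FBMS F) : Continuous (uu F) := (contDiff_uu h.smooth).continuous

private theorem ca (h : FBMS F) : Continuous (normA F) := (contDiff_normA h.smooth).continuous

private theorem crr : Continuous rr := contDiff_rr.continuous

private theorem bs {y : E} (hy : y ∈ bdry F) : y ∈ surf F := ⟨hy.1.le, hy.2⟩

theorem uu_sq_le (h : FBMS F) {y : E} (hy : y ∈ surf F) : uu F y ^ 2 ≤ rr y := by
  have h1 := grad_sq h hy
  have h2 := Finset.sum_mul_sq_le_sq_mul_sq Finset.univ (fun i => y i) (fun i => pd i F y)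
  rw [h1, mul_one] at h2
  exact h2

theorem rr_le {y : E} (hy : y ∈ surf F) : rr y ≤ 1 := by
  have h1 := norm_sq y
  have h2 : ‖y‖ ^ 2 ≤ 1 := pow_le_one₀ (norm_nonneg y) hy.1
  rw [h1] at h2
  exact h2

theorem rr_nonneg (y : E) : 0 ≤ rr y := Finset.sum_nonneg fun _ _ => sq_nonneg _

theorem len_one (h : FBMS F) : len F (fun _ => 1) = 2 * area F (fun _ => 1) := by
  have h1 := green h contDiff_rr (contDiff_const (c := (1 : ℝ)))
  have e1 : area F (fun y => 1 * lap F rr y + tang F rr (fun _ => 1) y) = area F (fun _ => 4 * 1) := by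
    refine area_congr (fun y hy => ?_) h
    rw [lap_rr h hy]
    unfold tang
    simp only [pd_const, mul_zero, Finset.sum_const_zero, sub_zero, add_zero]
    ring
  have e2 : len F (fun y => 1 * nd rr y) = len F (fun _ => 2 * 1) := by
    refine len_congr (fun y hy => ?_) h
    rw [nd_rr, rr_bdry hy]
    ring
  rw [e1, e2, area_const_mul, len_const_mul] at h1
  linarith

theorem area_rr (h : FBMS F) :
    2 * area F rr = area F (fun _ => 1) + area F (fun y => uu F y ^ 2) := by
  have h1 := green h contDiff_rr contDiff_rr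
  have e1 : area F (fun y => rr y * lap F rr y + tang F rr rr y) =
      area F (fun y => 8 * rr y - 4 * uu F y ^ 2) := by
    refine area_congr (fun y hy => ?_) h
    rw [lap_rr h hy, tang_rr_rr]
    ring
  have e2 : len F (fun y => rr y * nd rr y) = len F (fun _ => 2 * 1) := by
    refine len_congr (fun y hy => ?_) h
    rw [nd_rr, rr_bdry hy]
    ring
  have c1 : ContinuousOn (fun y => 8 * rr y) (surf F) := (continuous_const.mul crr).continuousOn
  have c2 : ContinuousOn (fun y => 4 * uu F y ^ 2) (surf F) := (continuous_const.mul ((cu h).pow 2)).continuousOn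
  rw [e1, e2, area_sub h c1 c2, area_const_mul, area_const_mul, len_const_mul, len_one h] at h1
  linarith

theorem area_k (h : FBMS F) : area F (fun y => ∑ a, pd a F y * ff F a y) =
    3 / 4 * (area F (fun _ => 1) - area F (fun y => uu F y ^ 2)) := by
  have e1 : area F (fun y => ∑ a, pd a F y * ff F a y) =
      area F (fun y => (1 / 2 * 1 + 1 / 2 * rr y) - uu F y ^ 2) := by
    refine area_congr (fun y hy => ?_) h
    have h1 := grad_sq h hy
    have h2 : ∑ a, pd a F y * ff F a y = 1 / 2 * (1 + rr y) * ∑ a, pd a F y ^ 2 - uu F y * uu F y := by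
      unfold ff uu
      simp only [Fin.sum_univ_three]
      ring
    rw [h2, h1]
    ring
  have c1 : ContinuousOn (fun y => 1 / 2 * 1 + 1 / 2 * rr y) (surf F) :=
    (continuous_const.add (continuous_const.mul crr)).continuousOn
  have c2 : ContinuousOn (fun y => uu F y ^ 2) (surf F) := ((cu h).pow 2).continuousOn
  have c3 : ContinuousOn (fun _ : E => 1 / 2 * (1 : ℝ)) (surf F) := continuousOn_const
  have c4 : ContinuousOn (fun y => 1 / 2 * rr y) (surf F) := (continuous_const.mul crr).continuousOn
  rw [e1, area_sub h c1 c2, area_add h c3 c4, area_const_mul, area_const_mul]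
  have := area_rr h
  linarith

/-- `∫ |∇ u| ^ 2 = ∫ |A| ^ 2 u ^ 2`. -/
theorem area_tang (h : FBMS F) : area F (tang F (uu F) (uu F)) = area F (fun y => normA F y * uu F y ^ 2) := by
  have hF := h.smooth
  have h1 := green h (contDiff_uu hF) (contDiff_uu hF)
  have e1 : area F (fun y => uu F y * lap F (uu F) y + tang F (uu F) (uu F) y) =
      area F (fun y => tang F (uu F) (uu F) y - normA F y * uu F y ^ 2) := by
    refine area_congr (fun y hy => ?_) h
    rw [lap_uu h hy]
    ring
  have e2 : len F (fun y => uu F y * nd (uu F) y) = len F (fun _ => 0) := by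
    refine len_congr (fun y hy => ?_) h
    rw [orth h hy]
    ring
  have e3 : len F (fun _ => 0) = 0 := by simp [len]
  have c1 : ContinuousOn (tang F (uu F) (uu F)) (surf F) :=
    (contDiff_tang hF (contDiff_uu hF) (contDiff_uu hF)).continuous.continuousOn
  have c2 : ContinuousOn (fun y => normA F y * uu F y ^ 2) (surf F) := ((ca h).mul ((cu h).pow 2)).continuousOn
  have e4 : area F (fun y => tang F (uu F) (uu F) y - normA F y * uu F y ^ 2) =
      area F (tang F (uu F) (uu F)) - area F (fun y => normA F y * uu F y ^ 2) := area_sub h c1 c2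
  rw [e1, e2, e3, e4] at h1
  linarith

theorem area_tau (h : FBMS F) :
    area F (fun y => normA F y * rr y) = 3 * area F (fun y => normA F y * uu F y ^ 2) := by
  have h1 := area_tang h
  have e1 : area F (tang F (uu F) (uu F)) =
      area F (fun y => 1 / 2 * (normA F y * rr y) - 1 / 2 * (normA F y * uu F y ^ 2)) := by
    refine area_congr (fun y hy => ?_) h
    rw [tang_uu_self h hy]
    ring
  have c1 : ContinuousOn (fun y => 1 / 2 * (normA F y * rr y)) (surf F) :=
    (continuous_const.mul ((ca h).mul crr)).continuousOn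
  have c2 : ContinuousOn (fun y => 1 / 2 * (normA F y * uu F y ^ 2)) (surf F) :=
    (continuous_const.mul ((ca h).mul ((cu h).pow 2))).continuousOn
  rw [e1, area_sub h c1 c2, area_const_mul, area_const_mul] at h1
  linarith

private theorem area_cross (h : FBMS F) :
    area F (fun y => uu F y * tang F (uu F) rr y) = -2 * area F (fun y => uu F y ^ 2) := by
  have hF := h.smooth
  have hu := contDiff_uu hF
  have h1 := green h contDiff_rr (hu.mul hu)
  have e1 : area F (fun y => uu F y * uu F y * lap F rr y + tang F rr (fun y => uu F y * uu F y) y) =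
      area F (fun y => 4 * uu F y ^ 2 + 2 * (uu F y * tang F (uu F) rr y)) := by
    refine area_congr (fun y hy => ?_) h
    rw [lap_rr h hy, tang_mul_right hu hu, tang_comm (f := rr) (g := uu F)]
    ring
  have e2 : len F (fun y => uu F y * uu F y * nd rr y) = len F (fun _ => 0) := by
    refine len_congr (fun y hy => ?_) h
    rw [orth h hy]
    ring
  have e3 : len F (fun _ => 0) = 0 := by simp [len]
  have c1 : ContinuousOn (fun y => 4 * uu F y ^ 2) (surf F) := (continuous_const.mul ((cu h).pow 2)).continuousOn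
  have c2 : ContinuousOn (fun y => 2 * (uu F y * tang F (uu F) rr y)) (surf F) :=
    (continuous_const.mul ((cu h).mul (contDiff_tang hF hu contDiff_rr).continuous)).continuousOn
  rw [e1, e2, e3, area_add h c1 c2, area_const_mul, area_const_mul] at h1
  linarith

theorem area_quad (h : FBMS F) (c : ℝ) :
    0 ≤ 4 * area F (fun y => uu F y ^ 2 * (rr y - uu F y ^ 2)) * (c * c) + -(4 * area F (fun y => uu F y ^ 2)) * c +
      area F (fun y => normA F y * uu F y ^ 2) := by
  have hF := h.smooth
  have hu := contDiff_uu hF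
  have e0 : ∀ y ∈ surf F, 0 ≤ (tang F (uu F) (uu F) y + 2 * c * (uu F y * tang F (uu F) rr y)) +
      4 * c ^ 2 * (uu F y ^ 2 * (rr y - uu F y ^ 2)) := by
    intro y hy
    have hsc : ∀ (s : ℝ), 0 ≤ tang F (uu F) (uu F) y + 2 * s * tang F (uu F) rr y + s ^ 2 * tang F rr rr y := by
      intro s
      have h1 := tang_nonneg h (fun z => uu F z + s * rr z) hy
      have h2 : tang F (fun z => uu F z + s * rr z) (fun z => uu F z + s * rr z) y =
          tang F (uu F) (uu F) y + 2 * s * tang F (uu F) rr y + s ^ 2 * tang F rr rr y := by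
        unfold tang
        simp only [pd_add _ hu (contDiff_const.mul contDiff_rr), pd_const_mul _ s contDiff_rr, Fin.sum_univ_three]
        ring
      rw [h2] at h1
      exact h1
    have h3 := hsc (c * uu F y)
    rw [tang_rr_rr] at h3
    linarith
  have h1 := area_nonneg h e0
  have c1 : ContinuousOn (tang F (uu F) (uu F)) (surf F) := (contDiff_tang hF hu hu).continuous.continuousOn
  have c2 : ContinuousOn (fun y => 2 * c * (uu F y * tang F (uu F) rr y)) (surf F) :=
    (continuous_const.mul ((cu h).mul (contDiff_tang hF hu contDiff_rr).continuous)).continuousOn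
  have c3 : ContinuousOn (fun y => 4 * c ^ 2 * (uu F y ^ 2 * (rr y - uu F y ^ 2))) (surf F) :=
    (continuous_const.mul (((cu h).pow 2).mul (crr.sub ((cu h).pow 2)))).continuousOn
  have e4 : area F (fun y => tang F (uu F) (uu F) y + 2 * c * (uu F y * tang F (uu F) rr y)) =
      area F (tang F (uu F) (uu F)) + area F (fun y => 2 * c * (uu F y * tang F (uu F) rr y)) := area_add h c1 c2
  have c4 : ContinuousOn (fun y => tang F (uu F) (uu F) y + 2 * c * (uu F y * tang F (uu F) rr y)) (surf F) :=
    c1.add c2
  rw [area_add h c4 c3, e4, area_const_mul, area_const_mul, area_tang h, area_cross h] at h1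
  linarith

/-- Cauchy-Schwarz: `(∫ f) ^ 2 ≤ (∫ f ^ 2) (∫ 1)`. -/
theorem area_cs (h : FBMS F) (hf : Continuous f) (hA : 0 < area F (fun _ => 1)) :
    area F f ^ 2 ≤ area F (fun y => f y ^ 2) * area F (fun _ => 1) := by
  obtain ⟨A, hAd⟩ : ∃ A, A = area F (fun _ => (1 : ℝ)) := ⟨_, rfl⟩
  obtain ⟨m, hm⟩ : ∃ m, m = area F f := ⟨_, rfl⟩
  rw [← hAd] at hA
  have h1 : 0 ≤ area F (fun y => (f y ^ 2 - 2 * (m / A) * f y) + (m / A) ^ 2 * 1) :=
    area_nonneg h fun y _ => by nlinarith [sq_nonneg (f y - m / A)]
  have c1 : ContinuousOn (fun y => f y ^ 2) (surf F) := (hf.pow 2).continuousOn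
  have c2 : ContinuousOn (fun y => 2 * (m / A) * f y) (surf F) := (continuous_const.mul hf).continuousOn
  have c3 : ContinuousOn (fun _ : E => (m / A) ^ 2 * (1 : ℝ)) (surf F) := continuousOn_const
  have c4 : ContinuousOn (fun y => f y ^ 2 - 2 * (m / A) * f y) (surf F) := c1.sub c2
  rw [area_add h c4 c3, area_sub h c1 c2, area_const_mul, area_const_mul, ← hm, ← hAd] at h1
  have h2 : 2 * (m / A) * m = 2 * (m ^ 2 / A) := by ring
  have h3 : (m / A) ^ 2 * A = m ^ 2 / A := by
    field_simp
  rw [h2, h3] at h1
  have h4 : m ^ 2 / A ≤ area F (fun y => f y ^ 2) := by linarith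
  rw [div_le_iff₀ hA] at h4
  rw [← hm, ← hAd]
  exact h4

/-- The main inequality. -/
theorem main_ineq (h : FBMS F) {z : E} (hz : z ∈ surf F) (hv : 0 < area F (fun y => uu F y ^ 2)) :
    2 * area F (uu F) ^ 2 < area F (fun y => normA F y * rr y) * area F (fun y => ∑ a, pd a F y * ff F a y) := by
  have hA : 0 < area F (fun _ => 1) :=
    area_pos h continuousOn_const (fun _ _ => zero_le_one) hz one_pos
  have hcs1 := area_cs h (cu h) hA
  have hcs2 := area_cs h ((cu h).pow 2) hA
  have hq := discrim_le_zero (area_quad h)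
  have hW : area F (fun y => uu F y ^ 2 * (rr y - uu F y ^ 2)) ≤
      area F (fun y => uu F y ^ 2) - area F (fun y => (uu F y ^ 2) ^ 2) := by
    have c1 : ContinuousOn (fun y => uu F y ^ 2) (surf F) := ((cu h).pow 2).continuousOn
    have c2 : ContinuousOn (fun y => (uu F y ^ 2) ^ 2) (surf F) := (((cu h).pow 2).pow 2).continuousOn
    have c3 : ContinuousOn (fun y => uu F y ^ 2 * (rr y - uu F y ^ 2)) (surf F) :=
      (((cu h).pow 2).mul (crr.sub ((cu h).pow 2))).continuousOn
    rw [← area_sub h c1 c2]
    refine area_mono h c3 (c1.sub c2) fun y hy => ?_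
    have h1 := rr_le hy
    nlinarith [sq_nonneg (uu F y)]
  rw [area_tau h, area_k h]
  have hP : 0 ≤ area F (fun y => normA F y * uu F y ^ 2) :=
    area_nonneg h fun y _ => mul_nonneg (normA_nonneg y) (sq_nonneg _)
  generalize area F (fun y => uu F y ^ 2 * (rr y - uu F y ^ 2)) = W at *
  generalize area F (fun y => (uu F y ^ 2) ^ 2) = v4 at *
  generalize area F (fun y => uu F y ^ 2) = v at *
  generalize area F (fun y => normA F y * uu F y ^ 2) = P at *
  generalize area F (uu F) = m at *
  generalize area F (fun _ => (1 : ℝ)) = A at *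
  unfold discrim at hq
  have h1 : v ^ 2 ≤ P * W := by nlinarith
  have h2 : A * W ≤ v * (A - v) := by nlinarith
  have h3 : v ^ 2 * A ≤ P * (v * (A - v)) := by nlinarith
  have h4 : v * A ≤ P * (A - v) := by
    have h5 : v * (v * A) ≤ v * (P * (A - v)) := by nlinarith
    exact le_of_mul_le_mul_left h5 hv
  nlinarith [mul_pos hv hA]

end Pool.Agent.Helper99.TS
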