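import Pool.Agent.Helper99.TS.Ident

/-!
# TS: signed permutations of the coordinates

`sp σ ε y = (ε i y (σ i))_i`. If `F ∘ sp = F`, then `area`, `len`, `normA` and `Q` are invariant.
`Vec G`: the family `G` transforms like the coordinates. For such families `G`, `H` and the tetrahedral rotation group,
`Q (G a) (H b) = 0` for `a ≠ b`, `Q (G a) (H a)` does not depend on `a`, and `Q 1 (G a) = 0`.
-/

set_option autoImplicit false

open MeasureTheory Filter
open scoped ContDiff Topology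

namespace Pool.Agent.Helper99.TS

open Pool.Agent.Helper78.FB

variable {F f g w : E → ℝ}

/-- The signed permutation of the coordinates. -/
noncomputable def sp (σ : Equiv.Perm (Fin 3)) (ε : Fin 3 → ℝ) (y : E) : E := WithLp.toLp 2 (fun i => ε i * y (σ i))

variable {σ : Equiv.Perm (Fin 3)} {ε : Fin 3 → ℝ}

theorem sp_apply (y : E) (i : Fin 3) : sp σ ε y i = ε i * y (σ i) := rfl

theorem rr_sp (hε : ∀ i, ε i * ε i = 1) (y : E) : rr (sp σ ε y) = rr y := by
  unfold rr
  rw [← Equiv.sum_comp σ (fun k => y k ^ 2)]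
  refine Finset.sum_congr rfl fun i _ => ?_
  rw [sp_apply]
  linear_combination (y (σ i) ^ 2) * hε i

theorem norm_sp (hε : ∀ i, ε i * ε i = 1) (y : E) : ‖sp σ ε y‖ = ‖y‖ := by
  have h1 := norm_sq (sp σ ε y)
  have h2 := norm_sq y
  have h3 : ‖sp σ ε y‖ ^ 2 = ‖y‖ ^ 2 := by rw [h1, h2]; exact rr_sp hε y
  exact (pow_left_inj₀ (norm_nonneg _) (norm_nonneg _) two_ne_zero).1 h3

/-- The signed permutation as a continuous linear map. -/
noncomputable def spL (σ : Equiv.Perm (Fin 3)) (ε : Fin 3 → ℝ) : E →L[ℝ] E :=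
  LinearMap.toContinuousLinearMap
    { toFun := sp σ ε
      map_add' := fun x y => by
        ext i
        simp only [sp_apply, PiLp.add_apply]
        ring
      map_smul' := fun c y => by
        ext i
        simp only [sp_apply, PiLp.smul_apply, smul_eq_mul, RingHom.id_apply]
        ring }

theorem spL_apply (y : E) : spL σ ε y = sp σ ε y := rfl

theorem contDiff_sp (hf : ContDiff ℝ ∞ f) : ContDiff ℝ ∞ (fun y => f (sp σ ε y)) :=
  hf.comp (spL σ ε).contDiff

theorem pd_sp (hf : ContDiff ℝ ∞ f) (j : Fin 3) (y : E) :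
    pd (σ j) (fun y => f (sp σ ε y)) y = ε j * pd j f (sp σ ε y) := by
  have h1 : HasFDerivAt (fun y => f (spL σ ε y)) ((fderiv ℝ f (spL σ ε y)).comp (spL σ ε)) y :=
    ((hf.differentiable (by simp) (spL σ ε y)).hasFDerivAt).comp y (spL σ ε).hasFDerivAt
  have h2 : spL σ ε (EuclideanSpace.single (σ j) (1 : ℝ)) = ε j • EuclideanSpace.single j (1 : ℝ) := by
    ext k
    rw [spL_apply, sp_apply, PiLp.smul_apply, smul_eq_mul, PiLp.single_apply, PiLp.single_apply]
    by_cases hk : k = j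
    · rw [hk, if_pos rfl, if_pos rfl]
    · rw [if_neg hk, if_neg (fun h => hk (σ.injective h)), mul_zero, mul_zero]
  have h3 : pd (σ j) (fun y => f (sp σ ε y)) y = fderiv ℝ f (sp σ ε y) (spL σ ε (EuclideanSpace.single (σ j) (1 : ℝ))) := by
    show fderiv ℝ (fun y => f (spL σ ε y)) y (EuclideanSpace.single (σ j) 1) = _
    rw [h1.fderiv]
    rfl
  rw [h3, h2, map_smul, smul_eq_mul]
  rfl

/-- The signed permutation as an isometric equivalence. -/
noncomputable def spE (σ : Equiv.Perm (Fin 3)) (ε : Fin 3 → ℝ) (hε : ∀ i, ε i * ε i = 1) : E ≃ᵢ E :=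
  IsometryEquiv.mk ⟨sp σ ε, sp σ.symm (fun i => ε (σ.symm i)), fun y => by
      ext i
      rw [sp_apply, sp_apply, Equiv.apply_symm_apply]
      linear_combination (y i) * hε (σ.symm i), fun y => by
      ext i
      rw [sp_apply, sp_apply, Equiv.symm_apply_apply]
      linear_combination (y i) * hε i⟩
    (by
      have h1 : Isometry (spL σ ε) := AddMonoidHomClass.isometry_of_norm (spL σ ε) fun y => norm_sp hε y
      exact h1)

private lemma int_sp (hε : ∀ i, ε i * ε i = 1) (d : ℝ) (S : Set E) (hS : ∀ y, sp σ ε y ∈ S ↔ y ∈ S) (f : E → ℝ) :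
    ∫ y in S, f (sp σ ε y) ∂μH[d] = ∫ y in S, f y ∂μH[d] := by
  have h1 : MeasurePreserving (spE σ ε hε) (μH[d]) (μH[d]) :=
    (spE σ ε hε).measurePreserving_hausdorffMeasure d
  have h2 := h1.setIntegral_preimage_emb (spE σ ε hε).toHomeomorph.measurableEmbedding f S
  have h3 : (spE σ ε hε) ⁻¹' S = S := by
    ext y
    exact hS y
  rw [h3] at h2
  exact h2

theorem mem_surf_sp (hε : ∀ i, ε i * ε i = 1) (hF : ∀ y, F (sp σ ε y) = F y) (y : E) :
    sp σ ε y ∈ surf F ↔ y ∈ surf F := by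
  unfold surf
  rw [Set.mem_ofPred_eq, Set.mem_ofPred_eq, norm_sp hε, hF]

theorem mem_bdry_sp (hε : ∀ i, ε i * ε i = 1) (hF : ∀ y, F (sp σ ε y) = F y) (y : E) :
    sp σ ε y ∈ bdry F ↔ y ∈ bdry F := by
  unfold bdry
  rw [Set.mem_ofPred_eq, Set.mem_ofPred_eq, norm_sp hε, hF]

theorem area_sp (hε : ∀ i, ε i * ε i = 1) (hF : ∀ y, F (sp σ ε y) = F y) (f : E → ℝ) :
    area F (fun y => f (sp σ ε y)) = area F f := by
  unfold area
  rw [int_sp hε 2 (surf F) (mem_surf_sp hε hF) f]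

theorem len_sp (hε : ∀ i, ε i * ε i = 1) (hF : ∀ y, F (sp σ ε y) = F y) (f : E → ℝ) :
    len F (fun y => f (sp σ ε y)) = len F f := by
  unfold len
  rw [int_sp hε 1 (bdry F) (mem_bdry_sp hε hF) f]

theorem pd_F_sp (hs : ContDiff ℝ ∞ F) (hF : ∀ y, F (sp σ ε y) = F y) (j : Fin 3) (y : E) :
    pd (σ j) F y = ε j * pd j F (sp σ ε y) := by
  have h1 : (fun y => F (sp σ ε y)) = F := funext hF
  have h2 := pd_sp (σ := σ) (ε := ε) hs j y
  rw [h1] at h2
  exact h2

theorem tang_sp (hε : ∀ i, ε i * ε i = 1) (hs : ContDiff ℝ ∞ F) (hF : ∀ y, F (sp σ ε y) = F y) (hf : ContDiff ℝ ∞ f)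
    (hg : ContDiff ℝ ∞ g) (y : E) :
    tang F (fun y => f (sp σ ε y)) (fun y => g (sp σ ε y)) y = tang F f g (sp σ ε y) := by
  unfold tang
  rw [← Equiv.sum_comp σ (fun i => pd i (fun y => f (sp σ ε y)) y * pd i (fun y => g (sp σ ε y)) y),
    ← Equiv.sum_comp σ (fun i => pd i F y * pd i (fun y => f (sp σ ε y)) y),
    ← Equiv.sum_comp σ (fun i => pd i F y * pd i (fun y => g (sp σ ε y)) y)]
  simp only [pd_sp hf, pd_sp hg, pd_F_sp hs hF]
  congr 1
  · refine Finset.sum_congr rfl fun i _ => ?_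
    linear_combination (pd i f (sp σ ε y) * pd i g (sp σ ε y)) * hε i
  · congr 1
    · refine Finset.sum_congr rfl fun i _ => ?_
      linear_combination (pd i F (sp σ ε y) * pd i f (sp σ ε y)) * hε i
    · refine Finset.sum_congr rfl fun i _ => ?_
      linear_combination (pd i F (sp σ ε y) * pd i g (sp σ ε y)) * hε i

theorem normA_sp (hε : ∀ i, ε i * ε i = 1) (hs : ContDiff ℝ ∞ F) (hF : ∀ y, F (sp σ ε y) = F y) (y : E) :
    normA F y = normA F (sp σ ε y) := by
  unfold normA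
  rw [← Equiv.sum_comp σ (fun i => ∑ j, pd i (pd j F) y ^ 2)]
  refine Finset.sum_congr rfl fun i _ => ?_
  rw [← Equiv.sum_comp σ (fun j => pd (σ i) (pd j F) y ^ 2)]
  refine Finset.sum_congr rfl fun j _ => ?_
  have h1 : pd (σ j) F = fun y => ε j * pd j F (sp σ ε y) := funext fun y => pd_F_sp hs hF j y
  have h2 : pd (σ i) (pd (σ j) F) y = ε j * (ε i * pd i (pd j F) (sp σ ε y)) := by
    rw [h1, pd_const_mul (σ i) (ε j) (contDiff_sp (contDiff_pd j hs))]
    show ε j * pd (σ i) (fun y => pd j F (sp σ ε y)) y = _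
    rw [pd_sp (contDiff_pd j hs)]
  rw [h2]
  have hi := hε i
  have hj := hε j
  linear_combination (ε i * ε i * pd i (pd j F) (sp σ ε y) ^ 2) * hj + (pd i (pd j F) (sp σ ε y) ^ 2) * hi

theorem Q_sp (hε : ∀ i, ε i * ε i = 1) (hs : ContDiff ℝ ∞ F) (hF : ∀ y, F (sp σ ε y) = F y) (hf : ContDiff ℝ ∞ f)
    (hg : ContDiff ℝ ∞ g) : Q F (fun y => f (sp σ ε y)) (fun y => g (sp σ ε y)) = Q F f g := by
  have a1 := area_sp hε hF (fun z => tang F f g z - normA F z * (f z * g z))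
  have a2 := len_sp hε hF (fun z => f z * g z)
  have e1 : (fun y => tang F (fun y => f (sp σ ε y)) (fun y => g (sp σ ε y)) y -
      normA F y * (f (sp σ ε y) * g (sp σ ε y))) =
      fun y => tang F f g (sp σ ε y) - normA F (sp σ ε y) * (f (sp σ ε y) * g (sp σ ε y)) := by
    funext y
    rw [tang_sp hε hs hF hf hg, normA_sp hε hs hF y]
  show area F (fun y => tang F (fun y => f (sp σ ε y)) (fun y => g (sp σ ε y)) y -
      normA F y * (f (sp σ ε y) * g (sp σ ε y))) - len F (fun y => f (sp σ ε y) * g (sp σ ε y)) = _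
  rw [e1, a1, a2]
  rfl

theorem uu_sp (hs : ContDiff ℝ ∞ F) (hF : ∀ y, F (sp σ ε y) = F y) (y : E) :
    uu F (sp σ ε y) = uu F y := by
  unfold uu
  rw [← Equiv.sum_comp σ (fun i => y i * pd i F y)]
  refine Finset.sum_congr rfl fun i _ => ?_
  rw [pd_F_sp hs hF, sp_apply]
  ring

/-- The family `G` transforms like the coordinates. -/
def Vec (F : E → ℝ) (G : Fin 3 → E → ℝ) : Prop :=
  ∀ (σ : Equiv.Perm (Fin 3)) (ε : Fin 3 → ℝ), (∀ i, ε i * ε i = 1) → (∀ y, F (sp σ ε y) = F y) →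
    ∀ j y, G j (sp σ ε y) = ε j * G (σ j) y

theorem vec_coord : Vec F (fun j y => y j) := fun _ _ _ _ _ _ => rfl

theorem vec_ff (hs : ContDiff ℝ ∞ F) : Vec F (ff F) := by
  intro σ ε hε hF j y
  unfold ff
  rw [rr_sp hε, uu_sp hs hF, sp_apply]
  have h1 := pd_F_sp hs hF j y
  have h2 : pd j F (sp σ ε y) = ε j * pd (σ j) F y := by
    rw [h1]
    linear_combination (-pd j F (sp σ ε y)) * hε j
  rw [h2]
  ring

/-- The invariance under the tetrahedral rotation group. -/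
structure Tet (F : E → ℝ) : Prop where
  cyc : ∀ y, F (sp (finRotate 3) (fun _ => 1) y) = F y
  turn : ∀ a : Fin 3, ∀ y, F (sp 1 (fun i => if i = a then 1 else -1) y) = F y

theorem turn_sq (a i : Fin 3) : (if i = a then (1 : ℝ) else -1) * (if i = a then 1 else -1) = 1 := by
  by_cases h : i = a <;> simp [h]

variable {G H : Fin 3 → E → ℝ}

theorem Q_off (hs : ContDiff ℝ ∞ F) (hT : Tet F) (hG : ∀ a, ContDiff ℝ ∞ (G a)) (hH : ∀ a, ContDiff ℝ ∞ (H a))
    (vG : Vec F G) (vH : Vec F H) (h : FBMS F) {a b : Fin 3} (hab : a ≠ b) : Q F (G a) (H b) = 0 := by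
  have h1 := Q_sp (turn_sq a) hs (hT.turn a) (hG a) (hH b)
  have e1 : (fun y => G a (sp 1 (fun i => if i = a then 1 else -1) y)) = G a := by
    funext y
    rw [vG _ _ (turn_sq a) (hT.turn a) a y]
    simp
  have e2 : (fun y => H b (sp 1 (fun i => if i = a then 1 else -1) y)) = fun y => (-1) * H b y := by
    funext y
    rw [vH _ _ (turn_sq a) (hT.turn a) b y, if_neg hab.symm]
    rfl
  rw [e1, e2, Q_comm, Q_const_mul_left h (-1) (hH b) (hG a), Q_comm (H b)] at h1
  linarith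

theorem Q_diag (hs : ContDiff ℝ ∞ F) (hT : Tet F) (hG : ∀ a, ContDiff ℝ ∞ (G a)) (hH : ∀ a, ContDiff ℝ ∞ (H a))
    (vG : Vec F G) (vH : Vec F H) (a : Fin 3) : Q F (G a) (H a) = Q F (G 0) (H 0) := by
  have hc : ∀ i : Fin 3, (fun _ : Fin 3 => (1 : ℝ)) i * (fun _ : Fin 3 => (1 : ℝ)) i = 1 := fun _ => one_mul 1
  have key : ∀ j : Fin 3, Q F (G (finRotate 3 j)) (H (finRotate 3 j)) = Q F (G j) (H j) := by
    intro j
    have h1 := Q_sp hc hs hT.cyc (hG j) (hH j)
    have e1 : (fun y => G j (sp (finRotate 3) (fun _ => 1) y)) = G (finRotate 3 j) := by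
      funext y
      rw [vG _ _ hc hT.cyc j y, one_mul]
    have e2 : (fun y => H j (sp (finRotate 3) (fun _ => 1) y)) = H (finRotate 3 j) := by
      funext y
      rw [vH _ _ hc hT.cyc j y, one_mul]
    rw [e1, e2] at h1
    exact h1
  have k0 : Q F (G 1) (H 1) = Q F (G 0) (H 0) := key 0
  have k1 : Q F (G 2) (H 2) = Q F (G 1) (H 1) := key 1
  fin_cases a
  · rfl
  · exact k0
  · exact k1.trans k0

theorem Q_one_vec (hs : ContDiff ℝ ∞ F) (hT : Tet F) (hG : ∀ a, ContDiff ℝ ∞ (G a)) (vG : Vec F G) (h : FBMS F)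
    (a : Fin 3) : Q F (G a) (fun _ => 1) = 0 := by
  obtain ⟨b, hb⟩ : ∃ b : Fin 3, a ≠ b := ⟨a + 1, by fin_cases a <;> decide⟩
  have h1 := Q_sp (turn_sq b) hs (hT.turn b) (hG a) (contDiff_const (c := (1 : ℝ)))
  have e1 : (fun y => G a (sp 1 (fun i => if i = b then 1 else -1) y)) = fun y => (-1) * G a y := by
    funext y
    rw [vG _ _ (turn_sq b) (hT.turn b) a y, if_neg hb]
    rfl
  rw [e1, Q_const_mul_left h (-1) (hG a) contDiff_const] at h1
  linarith

end Pool.Agent.Helper99.TS
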